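import Pool.Agent.W516.MT.Stmt

/-!
# MT-ROS
-/

set_option autoImplicit false

namespace Pool.Agent.W290.MT

open Module Pool.Agent.W516.MTS

/-- the inner product attached to a polarisation -/
noncomputable def core {T : Type} [AddCommGroup T] [Module ℂ T] (E : T →ₗ[ℝ] T →ₗ[ℝ] ℝ)
    (hI : ∀ u v, E (Complex.I • u) (Complex.I • v) = E u v) (hA : ∀ u, E u u = 0)
    (hP : ∀ u, u ≠ 0 → 0 < E (Complex.I • u) u) : InnerProductSpace.Core ℝ T where
  inner u v := E (Complex.I • u) v
  conj_inner_symm u v := by
    have hneg : ∀ x y, E x y = -E y x := by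
      intro x y
      have h := hA (x + y)
      rw [map_add, map_add, LinearMap.add_apply, LinearMap.add_apply, hA, hA] at h
      linarith
    show E (Complex.I • v) u = E (Complex.I • u) v
    have h1 := hI (Complex.I • v) u
    rw [smul_smul, Complex.I_mul_I, neg_one_smul, map_neg, LinearMap.neg_apply] at h1
    rw [← h1, hneg v (Complex.I • u), neg_neg]
  re_inner_nonneg u := by
    show 0 ≤ E (Complex.I • u) u
    by_cases hu : u = 0
    · rw [hu]; simp
    · exact (hP u hu).le
  definite u h := by
    by_contra hu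
    have := hP u hu
    have h' : E (Complex.I • u) u = 0 := h
    linarith
  add_left u v w := by
    show E (Complex.I • (u + v)) w = E (Complex.I • u) w + E (Complex.I • v) w
    rw [smul_add, map_add, LinearMap.add_apply]
  smul_left u v r := by
    show E (Complex.I • (r • u)) v = r * E (Complex.I • u) v
    rw [smul_comm, map_smul, LinearMap.smul_apply, smul_eq_mul]

theorem T_ROS : S_ROS := by
  intro W T _ _ _ _ _ per n b b' hb ω₀ E hω hI hA hP P P' hPP hskew htr
  -- coordinates
  have hrepr : ∀ (w : W) (i : Fin n), b'.repr (per w) i = ((b.repr w i : ℚ) : ℝ) := by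
    intro w i
    have h1 : per w = ∑ j, ((b.repr w j : ℚ) : ℝ) • b' j := by
      conv_lhs => rw [← b.sum_repr w]
      rw [map_sum]
      refine Finset.sum_congr rfl fun j _ => ?_
      rw [hb j]
      have := map_ratCast_smul per ℚ ℝ (b.repr w j) (b j)
      simpa using this
    rw [h1, b'.repr_sum_self]
  have hinj : ∀ w : W, per w = 0 → w = 0 := by
    intro w hw
    have h1 : b.repr w = 0 := by
      ext i
      have := hrepr w i
      rw [hw] at this
      simp only [map_zero, Finsupp.coe_zero, Pi.zero_apply] at this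
      have h2 : (b.repr w i : ℚ) = 0 := by exact_mod_cast this.symm
      simpa using h2
    exact (LinearEquiv.map_eq_zero_iff b.repr).mp h1
  set PR : T →ₗ[ℝ] T := P'.restrictScalars ℝ with hPR
  have hPRa : ∀ u, PR u = P' u := fun u => rfl
  -- skew symmetry
  have hsk : ∀ u v, E (P' u) v + E u (P' v) = 0 := by
    have h0 : E.comp PR + (LinearMap.lcomp ℝ ℝ PR).comp E = 0 := by
      refine b'.ext fun i => b'.ext fun j => ?_
      simp only [LinearMap.add_apply, LinearMap.comp_apply, LinearMap.lcomp_apply,
        LinearMap.zero_apply, hPRa]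
      rw [hb i, hb j, hPP, hPP, hω, hω]
      exact_mod_cast hskew (b i) (b j)
    intro u v
    have := congrArg (fun B : T →ₗ[ℝ] T →ₗ[ℝ] ℝ => B u v) h0
    simpa [LinearMap.add_apply, LinearMap.comp_apply, LinearMap.lcomp_apply, hPRa] using this
  -- trace
  have htr2 : LinearMap.trace ℝ T (PR ∘ₗ PR) = 0 := by
    rw [LinearMap.trace_eq_matrix_trace ℝ b']
    rw [LinearMap.trace_eq_matrix_trace ℚ b] at htr
    unfold Matrix.trace at htr ⊢
    have h1 : ∀ i, (LinearMap.toMatrix b' b' (PR ∘ₗ PR)).diag i
        = (((LinearMap.toMatrix b b (P ∘ₗ P)).diag i : ℚ) : ℝ) := by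
      intro i
      rw [Matrix.diag_apply, Matrix.diag_apply, LinearMap.toMatrix_apply, LinearMap.toMatrix_apply,
        LinearMap.comp_apply, LinearMap.comp_apply, hPRa, hPRa, hb i, hPP, hPP, hrepr]
    simp only [h1]
    exact_mod_cast htr
  -- inner product
  letI : NormedAddCommGroup T := (core E hI hA hP).toNormedAddCommGroup
  letI : InnerProductSpace ℝ T := InnerProductSpace.ofCore (core E hI hA hP).toCore
  haveI : FiniteDimensional ℝ T := b'.finiteDimensional_of_finite
  have hin : ∀ u v : T, inner ℝ u v = E (Complex.I • u) v := fun u v => rfl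
  have hskg : ∀ u : T, inner ℝ u (PR (PR u)) = -inner ℝ (PR u) (PR u) := by
    intro u
    rw [hin, hin, hPRa, hPRa]
    have := hsk (Complex.I • u) (P' u)
    rw [map_smul] at this
    linarith
  set e := stdOrthonormalBasis ℝ T with he
  have h3 : ∑ i, inner ℝ (e i) ((PR ∘ₗ PR) (e i)) = 0 := by
    rw [← LinearMap.trace_eq_sum_inner (PR ∘ₗ PR) e]
    exact htr2
  have h4 : ∑ i, inner ℝ (PR (e i)) (PR (e i)) = 0 := by
    have h5 : ∑ i, inner ℝ (e i) ((PR ∘ₗ PR) (e i)) = -∑ i, inner ℝ (PR (e i)) (PR (e i)) := by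
      rw [← Finset.sum_neg_distrib]
      exact Finset.sum_congr rfl fun i _ => hskg (e i)
    rw [h5] at h3
    linarith
  have h6 : ∀ i, PR (e i) = 0 := by
    intro i
    have h7 := (Finset.sum_eq_zero_iff_of_nonneg (fun i _ => real_inner_self_nonneg)).mp h4 i
      (Finset.mem_univ i)
    exact inner_self_eq_zero.mp h7
  have h8 : PR = 0 := e.toBasis.ext fun i => by simpa using h6 i
  ext w
  apply hinj
  rw [← hPP, ← hPRa, h8]
  simp

end Pool.Agent.W290.MT
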